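import Pool.Agent.V7H82.TG.MainU
import Pool.Agent.TH776.FM.MTDefs
import Pool.Agent.W516.MT.AllFinal

/-!
# The motivic Mumford-Tate conjecture for abelian varieties of any type, from one Frobenius polynomial
# whose roots are permuted doubly homogeneously

Let `A` be ANY abelian variety over a finitely generated subfield of the complex numbers (there is no
condition on the endomorphisms: factors of type IV are allowed), and `M = h¹(A)` its motive. Suppose
that for ONE place of good reduction, with residue field of `q = p ^ m` elements, the characteristic
polynomial of the Frobenius element is the product of the minimal polynomials of Weil numbers `π i`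
which generate CM fields `K i`. NOTHING is supposed about the slopes of the `π i`.

Two complex embeddings `x`, `y` of `K i` are *flipped* if some automorphism of `ℂ` fixes `x` and
conjugates `y`, or moves `x` to `y` and `y` to the conjugate of `x`. The *classes* are those of the
equivalence relation generated by not being flipped (`Linked`, for the subfield `ℚ`). Suppose that
for all `i` (`IsGoodWeilNumber`, `PairwiseFlipped`)

* all positive powers of `π i` generate `K i`;
* each class consists of a prime number of pairs of conjugate embeddings, or any two pairs of the class
  can be moved to any two others by automorphisms of `ℂ` and the number of pairs is not `10`, `16` or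
  `28`; for instance any two embeddings of the maximal real subfield of `K i` can be moved to any two
  others, and its degree is not `10`, `16` or `28`;
* the number `q ^ 2` is not, up to roots of unity, the norm of `π i` to a subfield `F` of `K i` which
  is not real and satisfies `[K i : F] = 4`;
* for `j ≠ i`, an embedding of `K i` and one of `K j`, some automorphism of `ℂ` fixes the first one and
  conjugates the second one (no condition for one field).

Then all Tate classes in all spaces `(H^1)^{⊗ 2 n}(n)`, and so in the cohomology of all powers of `A`,
are linear combinations of Hodge classes. Hodge classes on abelian varieties are absolute Hodge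
classes (Deligne) and motivated (André). So this is the motivic Mumford-Tate conjecture
`G_{ℓ,k}(M)° = G_σ(M)` over `ℚ_ℓ` for the motive `M = h¹(A)` and all objects of the tannakian category
generated by it, in the sense of André and in the sense of absolute Hodge cycles, and the equality of
the neutral components of the groups of the motivic Sato-Tate conjecture.

The Hodge classes need not be generated in degree two: if the norm of `π i` to an imaginary
quadratic subfield is supersingular there are relations between the Frobenius eigenvalues, and if
`A` is of Weil type there are exceptional Hodge classes. The theorem says that nevertheless the Hodge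
group is as large as the Galois group.

Idea. The Galois translates of the slopes of the `π i` give a symmetric kernel on the embeddings,
which is invariant, odd under conjugation, zero on flipped embeddings and smaller than its diagonal
value. A relation of length four (a product of four conjugates in different pairs is `q ^ 2` up to a
root of unity) gives four rows of the kernel with sum zero, and it follows that the four embeddings
are in one class. If the pairs of the class are permuted doubly homogeneously, they give `n`
equiangular lines with angle `arccos (1 / 3)` in a space of dimension `9 n / (n + 8)`, so that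
`n` is `4`, `10`, `16`, `28` (or `64`, which is excluded by the bound of Gerzon); for `n = 4` the four
embeddings are a block, which gives the subfield `F`. If the number of pairs is a prime number, an
element of this order makes the absolute value of the relation constant, which is impossible. So
there are no nontrivial relations of length four, and the theorem `mt_of_four` of this repository
applies (its proof uses the theorems of Faltings and Deligne and the theorem on centres, which are
the last properties in `IsAbelianVariety`).
-/

namespace Pool.Agent.Results.MP_d61fbb_ag.DoublyHomogeneousH82

open NumberField Module TensorProduct Pool.Agent.H204R3.GP Pool.Agent.W516.MTD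
  Pool.Agent.W527.TateRing Pool.Agent.TH776.FM Pool.Agent.V7H82.TG

/-- The motivic Mumford-Tate conjecture for the motives `h¹` of abelian varieties of any type, from one
Frobenius polynomial whose roots form classes which are doubly homogeneous or of prime size. -/
theorem result (p : ℕ) [Fact p.Prime] (m : ℕ) (ℓ : ℕ) [Fact ℓ.Prime]
    -- the Weil numbers
    {ι : Type} [Fintype ι] (X : ι → WeilNumber p m)
    (hX : ∀ i, IsGoodWeilNumber (p ^ m) (X i).π) (hX' : PairwiseFlipped X)
    -- the abelian variety, of any type
    {H T Γ : Type} [AddCommGroup H] [Module ℚ H] [FiniteDimensional ℚ H] [AddCommGroup T]
    [Module ℂ T] [Group Γ] (per : H →+ T) (ω₀ : H →ₗ[ℚ] H →ₗ[ℚ] ℚ)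
    (ρ : Representation ℚ_[ℓ] Γ (ℚ_[ℓ] ⊗[ℚ] H)) (χ : Γ →* ℚ_[ℓ])
    (ω : ℚ_[ℓ] ⊗[ℚ] H →ₗ[ℚ_[ℓ]] ℚ_[ℓ] ⊗[ℚ] H →ₗ[ℚ_[ℓ]] ℚ_[ℓ])
    (hA : IsAbelianVariety per ω₀ ρ χ ω)
    -- the Frobenius element
    (γ : Γ) (hχ : χ γ = (p ^ m : ℕ))
    (hγ : (ρ γ).charpoly = (∏ i, minpoly ℚ (X i).π).map (algebraMap ℚ ℚ_[ℓ]))
    -- Tate classes are combinations of Hodge classes
    (n : ℕ) (φ : MultilinearMap ℚ_[ℓ] (fun _ : Fin n × Fin 2 => ℚ_[ℓ] ⊗[ℚ] H) ℚ_[ℓ])
    (hφ : IsTateTensor ρ χ n φ) : IsHodgeCombination per φ :=
  Pool.Agent.W516.MTM.mt_of_four per ρ χ ω₀ ω hA.hodge
    (fun u v => by rw [hA.compatible, eq_ratCast]) hA.similitude hA.deligne hA.rational hA.alt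
    hA.nondeg hA.semisimple hA.faltings hA.centres γ hχ
    (separable_of_flipped hX' fun i => (hX i).gen) hγ (onlyTrivialU hX hX') n φ hφ

end Pool.Agent.Results.MP_d61fbb_ag.DoublyHomogeneousH82
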