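import Pool.Agent.V7H2.FT.Family

/-!
# One Tate class of degree four decides the motivic Sato-Tate (and Mumford-Tate) conjecture

`M i`: finitely many motives over a finitely generated field, pure of the weights `n i`, with
polarizations `φ i` and `ℓ`-adic realizations `F.V i`; `g` and `h` are the Lie algebras of the motivic
Galois group (over `K = ℚ_ℓ`) and of the `ℓ`-adic monodromy group of the sum of the `M i`
(`Setup`: `h ≤ g`, `g` is reductive, contains the weights and respects the polarizations up to a
multiplier). Nothing is assumed about `h`.

* If the centres of the algebras `End (M i)` are totally real (self-adjoint), the following are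
  equivalent: (1) the motivic Sato-Tate conjecture up to components, that is, all elements of `g` with
  trivial multiplier are in `h`; (2) the Tate endomorphisms of each `M i` are motivated, `h` has a
  Casimir tensor and this **one** tensor is motivated; (3) the `ℓ`-adic representation is semisimple and
  all Tate classes in `End (M i) ⊗ End (M j)` are motivated, for all pairs `i, j`.
* Arbitrary centres: (2) implies that the derived algebras of `g` and `h` agree; and `h = g` iff (2)
  holds and `h` maps onto the abelian Lie algebra `g / [g, g]`.
-/

set_option autoImplicit false

namespace Pool.Agent.Results.MP_d61fbb_ag.CasimirDecidesH2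

open Pool.Agent.V7H2.FT.Fam

theorem result {K : Type} [Field K] [CharZero K] {F : Family K} {n : F.I → ℤ} {φ : Forms F}
    {g h : Submodule K (Ops F)} (S : Setup n φ g h) :
    -- totally real centres
    (RealCentre φ g → List.TFAE [SkewAgree φ g h, EndsAgree g h ∧ CasimirAgree g h,
      Nondeg h ∧ PairsAgree g h]) ∧
    -- arbitrary centres
    (EndsAgree g h → CasimirAgree g h → derived g = derived h) ∧
    (h = g ↔ EndsAgree g h ∧ CasimirAgree g h ∧ g ≤ derived g ⊔ h) :=
  motives S

end Pool.Agent.Results.MP_d61fbb_ag.CasimirDecidesH2
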