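import Pool.Agent.V7H12.TT.Main

/-!
# MP_d61fbb_ag: the Mumford-Tate conjecture for hyperkähler varieties, in all degrees

Let `X_k` be finitely many projective hyperkähler varieties over a number field `K`, of any
deformation types, and let `M` be the sum of the motives of the `X_k`. The motivic Sato-Tate
conjecture for `M`, for the neutral components, is the Mumford-Tate conjecture for the `ℓ`-adic
cohomology of the `X_k` in all degrees. We deduce it from the conjecture for the sum of the
`H²(X_k)`, which is known (André for one variety with `b₂ > 3`, Commelin for sums of abelian motives).
No abelian motives are used for the higher degrees, and no deformations.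

The tensor spaces `T(a)` are the tensor products of the spaces `H^i(X_k)` (so, by Künneth's formula,
of the cohomology of products of powers of the `X_k`; by Poincaré duality they contain the duals, up
to Tate twists). The product of the Lie algebras `so(H²(X_k))` acts on `T(a)` (Verbitsky,
Looijenga-Lunts). The Newton operators of a place of degree one are the slope operators of the
Frobenius on the sum of the `H²(X_k)`, minus one, for all `p`-adic valuations of `ℚ̄`; `newtonLie` is the
Lie algebra which they generate. By Serre and Pink it is the Lie algebra of the Galois group (acting on
the sum of the `H²(X_k)(1)`).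

Idea of the proof.

(1) Weak admissibility of the crystalline cohomology for the images of the idempotents which commute
with `so(H²)` shows that the slope operator of `H^i` is `i / 2 + ρ_i (S - 1)`, up to a commuting
nilpotent operator, for the slope operator `S` of `H²` (the starting files `N184/HK`). As `S - 1` is in
`so(H²)` and has rational eigenvalues, it acts semisimply on `H^i` (by `sl₂`-theory for root vectors);
so the slope operator is equal to `i / 2 + ρ_i (S - 1)`. Then the same is true for the tensor spaces.

(2) Let `x` in `T(a)` be killed by the Newton operators of a good place, in weight `2 m`. Then `x` has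
only components for Frobenius eigenvalues with all slopes `m`. These are `p ^ m` times roots of
unity of bounded order. By continuity and Chebotarev, for all `σ` in the Galois group a bounded power
of `σ` acts on `x` with the only eigenvalue given by the Tate twist, and then `σ` itself, if `σ` is
close to one. The converse is easy. The same argument works for the endomorphisms of `T(a)`: two
Frobenius eigenvalues with the same slopes differ by a root of unity.

(3) A space on which an open subgroup acts with the only eigenvalue of the Tate twist is filtered by
characters of this form (Kolchin). The extensions are given by additive characters of open subgroups.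
By the theorem of Sen these are unramified on an open subgroup of the inertia groups above `ℓ`, and
they vanish by class field theory. So generalized Tate classes are Tate classes, and the endomorphisms
of `T(a)` which commute with the Newton operators commute with an open subgroup.

(4) A subspace which is stable under an open subgroup is stable under the Newton operators, as these are
functions of the powers of the Frobenius. If the conjecture holds for `H²`, then the Lie algebra of the
Hodge group of `H²` and `newtonLie` correspond to each other, so Tate classes are combinations of Hodge
classes. As the category of polarizable Hodge structures is semisimple, the trace form of the algebra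
generated by the Hodge Lie algebra on `T(a)` is nondegenerate, and this is preserved by the extension
of scalars to `Ω`; so a subspace which is stable under `newtonLie` has a stable complement. The
projection commutes with an open subgroup by (3). An average gives a complement for the given
open subgroup.
-/

set_option autoImplicit false

namespace Pool.Agent.Results.MP_d61fbb_ag.MumfordTateHyperkaehlerH12

open Pool.Agent.V7H12.TT Pool.Agent.N184.HK Pool.Agent.W401.Cheb

/-- **The Mumford-Tate conjecture for hyperkähler varieties in all degrees, given the conjecture for
`H²`.** Let `𝒳` be a finite family of projective hyperkähler varieties over the number field `K`, let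
`ν` be the inverse of the cyclotomic character.

(1) A class in a tensor space of weight `2 m` is a generalized Tate class if and only if it is killed
by the Lie algebra generated by the Newton operators of the `H²`.

(2) Assume the facts `LocalFacts` from class field theory and `p`-adic Hodge theory. Then generalized
Tate classes are Tate classes, and an endomorphism of a tensor space commutes with an open subgroup of
the Galois group if and only if it commutes with `newtonLie 𝒳`.

(3) Let `𝒴` be the singular cohomology, with Hodge structures and comparison maps, and assume the
Mumford-Tate conjecture for the sum of the `H²`. Then the generalized Tate classes are the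
combinations of Hodge classes.

(4) Assume also the facts `LocalFacts` and the semisimplicity of polarizable Hodge structures. Then all
tensor spaces are semisimple representations of all open subgroups of the Galois group, and the
subspaces which are stable under an open subgroup are the subspaces which are stable under the Lie
algebra of the Hodge group of the `H²`. (By Chevalley's theorem this determines the neutral component
of the `ℓ`-adic monodromy group, up to scalars.) -/
theorem result {K : Type} [Field K] [NumberField K] {Ω : Type} [Field Ω] [CharZero Ω]
    [IsAlgClosed Ω] [TopologicalSpace Ω] [IsTopologicalRing Ω] [T2Space Ω] {κ : Type} [Finite κ]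
    [Nonempty κ] (𝒳 : HKFamily K Ω κ) {ν : GK K → Ω} (hν : IsCyclotomic 𝒳 ν) :
    (∀ a m, a.weight = 2 * m → ∀ x, GenTate 𝒳 ν a m x ↔ 𝒳.Killed (newtonLie 𝒳) a x) ∧
    (∀ ℓ, LocalFacts 𝒳 ℓ ν →
      (∀ a m x, GenTate 𝒳 ν a m x ↔ IsTate 𝒳 ν a m x) ∧
      ∀ a e, 𝒳.OpenComm a e ↔ 𝒳.LieComm (newtonLie 𝒳) a e) ∧
    (∀ 𝒴 : BettiFamily 𝒳, MumfordTateTwo 𝒴 →
      ∀ a m, a.weight = 2 * m → ∀ x, GenTate 𝒳 ν a m x ↔ x ∈ hodgeSpan 𝒴 a) ∧
    (∀ (ℓ : ℕ) (𝒴 : BettiFamily 𝒳), LocalFacts 𝒳 ℓ ν → MumfordTateTwo 𝒴 → Polarizable 𝒴 →
      ∀ a, (∀ V : Subgroup (GK K), IsOpen (V : Set (GK K)) → ∀ W, 𝒳.Stable V a W →
          ∃ W', IsCompl W W' ∧ 𝒳.Stable V a W') ∧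
        ∀ W, 𝒳.OpenStable a W ↔ 𝒳.LieStable (hodgeExt 𝒴) a W) :=
  ⟨fun a _ hm x => tate_iff 𝒳 hν a hm x,
    fun _ hL => ⟨fun a m x => gen_iff 𝒳 hν hL a m x, fun a e => comm_iff 𝒳 hν hL a e⟩,
    fun 𝒴 hMT a _ hm y => tate_hodge 𝒴 hν hMT a hm y,
    fun _ 𝒴 hL hMT hpol a => ⟨fun _ hV _ hW => galois_ss 𝒴 hν hL hMT hpol a hV hW,
      fun W => stable_iff 𝒴 hν hL hMT hpol a W⟩⟩

end Pool.Agent.Results.MP_d61fbb_ag.MumfordTateHyperkaehlerH12
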