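import Pool.Agent.V7H5.TS.Final

/-!
# A zero-one law for the Mumford-Tate conjecture

Let `X` be a smooth projective variety over a finitely generated field of characteristic zero which
is embedded in the complex numbers, `ℓ` a prime number and `M` the motive of `X` (or of an object of the
tannakian category generated by it). The motivic Mumford-Tate conjecture, which is equivalent to the
motivic Sato-Tate conjecture (Q1), says that the neutral component `G_ℓ(M)°` of the `ℓ`-adic monodromy
group is the Mumford-Tate group `G_σ(M)` over `ℚ_ℓ`. The tensor invariants of `G_σ(M)` are the Hodge
classes and those of `G_ℓ(M)°` are the Tate classes on the powers of `X`; so the conjecture implies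
(and for a semisimple representation it is equivalent to it) that

* all Hodge classes on all powers of `X` are Tate classes (`HodgeInTate`; this is the inclusion
  `G_ℓ(M)° ⊂ G_σ(M)`, which is known for abelian varieties by a theorem of Deligne, and open in
  general), and
* all Tate classes on all powers of `X` are `ℚ_ℓ`-linear combinations of Hodge classes
  (`TateInHodge`).

Let `h n`, `t n` and `b n` be the dimensions of the spaces spanned by the Hodge classes, by the Tate
classes, and by the Hodge classes which are Tate classes, of all codimensions on the product of
`n + 1` copies of `X` (`hodgeDim`, `tateDim`, `hodgeTateDim`). We prove, for every `X` and every `ℓ`,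
without assumptions on cycles, on the semisimplicity of the Galois representation, on Frobenius
elements or on monodromy:

* All Hodge classes on all powers of `X` are Tate classes, or `b n / h n` tends to `0`.
* All Tate classes on all powers of `X` are `ℚ_ℓ`-linear combinations of Hodge classes, or `b n / t n`
  tends to `0`.

So it suffices to find Galois invariance for a positive proportion of the Hodge classes on infinitely
many powers (for example for one percent of them) to obtain it for all Hodge classes on all powers,
and the Mumford-Tate conjecture for the motive of `X` is true as soon as on infinitely many powers a
positive proportion of the Hodge classes and of the Tate classes is given by classes which are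
both. There is nothing between the Mumford-Tate conjecture and density zero.

The Lean statement uses the formal properties of the two theories. `𝒱`, `ops` is a class of smooth
projective varieties with algebraic cycles over an algebraically closed subfield of the complex
numbers, `W` is the singular cohomology with rational coefficients, `Ψ` its Hodge structure, `W'` the
`ℓ`-adic cohomology and `C` the comparison of `W` and `W'`; `G` is the Galois group of a field of
definition of `X`, with its actions on the cohomology of the powers of `X` (`pw X n` is the product of
`n + 1` copies of `X`). A Tate class of codimension `j` is an element of `H^(2j)` on which a subgroup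
of finite index acts by the `j`-th power of (the inverse of) the cyclotomic character.

Idea of the proof. The spaces of the Hodge classes which are Tate classes have nondegenerate
intersection forms, by the Hodge-Riemann relations (the correspondences which give the Lefschetz
decomposition are both Hodge and Tate classes). Suppose that `b n / h n` does not tend to `0`. By the
index law of the starting library (`Pool.Agent.Y133.Half`, for systems of classes over a system with
nondegenerate intersection forms) the Hodge classes on all powers of `X` are the images of
finitely many of them under correspondences which are both Hodge and Tate classes. We combine them to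
one class `τ` on one power `Y`, so that all Hodge classes on all powers are images `x τ` of `τ` under
such correspondences `x`. In particular `τ ⊗ τ = Δ τ` for such a correspondence `Δ`. The nonzero
classes `b` with `b ⊗ b = Δ b`, for a given `Δ`, are linearly independent, so that there are only finitely many
of them, and a subgroup of finite index of the Galois group fixes `Δ` and permutes them. So `τ` is a
Tate class, and all Hodge classes are Tate classes. For the second statement we use in the same way a
class `τ` which generates the Tate classes. The group of nonzero complex numbers, which is
divisible and so has no subgroups of finite index, acts on the finite set of the classes `b`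
over any field which contains `ℚ_ℓ` and `ℝ`, and since the tensor product of `ℚ_ℓ` and `ℝ` over `ℚ` is
reduced this shows that the coordinates of `τ` with respect to a basis of `ℚ_ℓ` over `ℚ` are Hodge
classes.
-/

open CategoryTheory AlgebraicGeometry

universe u v w

namespace Pool.Agent.Results.MP_d61fbb_ag.MumfordTateLawH5

open Pool.Agent.H914 Pool.Agent.H914.VarClass Pool.Agent.H914.VarClass.Obj
  Pool.Agent.H914.WeilCohomology Pool.Agent.Y133.Hdg Pool.Agent.V7H5.TH Pool.Agent.V7H5.TS

/-- **The Mumford-Tate conjecture, or density zero.** -/
theorem result {k : Type u} [Field k] {𝒱 : VarClass k} {ops : CycleOps 𝒱}
    {W W' : WeilCohomology.{u, v} ops} [Algebra W.K ℝ] (Ψ : HodgeStr W) (C : Comparison W W')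
    (X : 𝒱.Obj) [Nontrivial (W.H X)] (G : GaloisAct.{u, v, w} W' X) :
    (HodgeInTate Ψ C G ∨ DensityZero (hodgeTateDim Ψ C G) (Pool.Agent.V7H5.TS.hodgeDim Ψ X)) ∧
    (TateInHodge Ψ C G ∨ DensityZero (hodgeTateDim Ψ C G) (tateDim G)) :=
  ⟨hodge_law Ψ C G, tate_law Ψ C G⟩

end Pool.Agent.Results.MP_d61fbb_ag.MumfordTateLawH5
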